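import Pool.Agent.H28.BR.Stm

/-!
# Project BR, module FM0: the first moment with a power saving
-/

set_option autoImplicit false

namespace Pool.Agent.H50.BR

open Finset Filter Topology MeasureTheory Pool.Agent.H28.BR
open Pool.Agent.Q122.FM (W MT Q1 P1 Lp lam S_FIN)

noncomputable section

theorem W_eq (ε : ℤ) (x H : ℕ) : W ε x H = ∑ n ∈ Ioc x (x + H), Lf ε n := rfl

/-- the error of the first moment -/
def Ee (ε : ℤ) (N : ℕ) : ℝ := ∑ n ∈ Ioc 1 N, Lf ε n - M0 ε N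

theorem tele2 (E : ℕ → ℝ) (X H : ℕ) : ∑ x ∈ Icc 1 X, (E (x + H) - E x) =
    ∑ j ∈ Icc 1 H, (E (X + j) - E j) := by
  induction X with
  | zero => simp
  | succ X ih =>
    rw [← Finset.insert_Icc_right_eq_Icc_add_one (by omega : 1 ≤ X + 1), Finset.sum_insert (by simp),
      ih]
    have h1 : ∑ j ∈ Icc 1 H, (E (X + 1 + j) - E (X + j)) = E (X + 1 + H) - E (X + 1) := by
      clear ih
      induction H with
      | zero => simp
      | succ H ih =>
        rw [← Finset.insert_Icc_right_eq_Icc_add_one (by omega : 1 ≤ H + 1),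
          Finset.sum_insert (by simp), ih]
        have : X + (H + 1) = X + 1 + H := by omega
        rw [this]
        ring_nf
    have h2 : ∑ j ∈ Icc 1 H, (E (X + 1 + j) - E j) =
        ∑ j ∈ Icc 1 H, (E (X + 1 + j) - E (X + j)) + ∑ j ∈ Icc 1 H, (E (X + j) - E j) := by
      rw [← Finset.sum_add_distrib]
      refine Finset.sum_congr rfl fun j _ => ?_
      ring
    rw [h2, h1]

/-- the integrand is continuous -/
theorem cont_Q1 (a : ℕ) : ContinuousOn (fun t : ℝ => Q1 a (Real.log t)) (Set.Ioi 0) := by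
  unfold Q1
  have h : ContinuousOn Real.log (Set.Ioi 0) :=
    Real.continuousOn_log.mono fun x hx => (ne_of_gt hx)
  exact continuousOn_const.mul ((((h.add continuousOn_const).div_const 2).add
    continuousOn_const).add continuousOn_const)

theorem int_Q1 (a : ℕ) {x y : ℝ} (hx : 0 < x) (hy : 0 < y) :
    IntervalIntegrable (fun t : ℝ => Q1 a (Real.log t)) volume x y := by
  apply ContinuousOn.intervalIntegrable
  apply (cont_Q1 a).mono
  intro t ht
  rw [Set.mem_uIcc] at ht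
  rw [Set.mem_Ioi]
  rcases ht with h | h <;> linarith

theorem M0_sub (ε : ℤ) {x y : ℕ} (hx : 1 ≤ x) (hy : 1 ≤ y) : M0 ε y - M0 ε x =
    3 / Real.pi ^ 2 * ∫ t in (x : ℝ)..(y : ℝ), Q1 (if ε = 1 then 0 else 1) (Real.log t) := by
  have hx' : (0 : ℝ) < x := by exact_mod_cast hx
  have hy' : (0 : ℝ) < y := by exact_mod_cast hy
  unfold M0
  rw [← mul_sub, intervalIntegral.integral_interval_sub_left (int_Q1 _ one_pos hy')
    (int_Q1 _ one_pos hx')]

theorem W_MT (ε : ℤ) {x : ℕ} (hx : 1 ≤ x) (H : ℕ) : W ε x H - MT ε x H =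
    Ee ε (x + H) - Ee ε x := by
  have h1 : MT ε x H = M0 ε (x + H) - M0 ε x := by
    rw [M0_sub ε hx (by omega)]
    unfold MT
    push_cast
    rfl
  have h2 : ∑ n ∈ Ioc 1 (x + H), Lf ε n = ∑ n ∈ Ioc 1 x, Lf ε n + ∑ n ∈ Ioc x (x + H), Lf ε n := by
    rw [← Finset.sum_union]
    · congr 1
      ext n
      simp only [Finset.mem_union, Finset.mem_Ioc]
      omega
    · rw [Finset.disjoint_left]
      intro n h3 h4
      simp only [Finset.mem_Ioc] at h3 h4
      omega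
  rw [h1, W_eq]
  unfold Ee
  rw [h2]
  ring

/-- bound for the main term -/
theorem M0_bound : ∃ K : ℝ, 0 < K ∧ ∀ (ε : ℤ) (x y : ℕ), 1 ≤ x → x ≤ y →
    |M0 ε y - M0 ε x| ≤ K * (1 + Real.log y) * ((y : ℝ) - x) := by
  set c : ℝ := |lam 0| + |lam 1| + |2 * Real.eulerMascheroniConstant| + |2 * Lp| with hc
  have hc0 : 0 ≤ c := by positivity
  refine ⟨3 / Real.pi ^ 2 * ((|P1| + 1) * (1 + c)), by positivity, ?_⟩
  intro ε x y hx hxy
  have hx' : (1 : ℝ) ≤ x := by exact_mod_cast hx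
  have hxy' : (x : ℝ) ≤ y := by exact_mod_cast hxy
  have hly : 0 ≤ Real.log y := Real.log_nonneg (by linarith)
  rw [M0_sub ε hx (by omega), abs_mul, abs_of_pos (show 0 < 3 / Real.pi ^ 2 by positivity)]
  have h1 : ‖∫ t in (x : ℝ)..(y : ℝ), Q1 (if ε = 1 then 0 else 1) (Real.log t)‖ ≤
      (|P1| + 1) * (1 + c) * (1 + Real.log y) * |(y : ℝ) - x| := by
    apply intervalIntegral.norm_integral_le_of_norm_le_const
    intro t ht
    rw [Set.uIoc_of_le hxy', Set.mem_Ioc] at ht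
    have ht0 : 0 < t := by linarith
    have hl0 : 0 ≤ Real.log t := Real.log_nonneg (by linarith)
    have hl1 : Real.log t ≤ Real.log y := Real.log_le_log ht0 ht.2
    have hlam : |lam (if ε = 1 then 0 else 1)| ≤ |lam 0| + |lam 1| := by
      split_ifs
      · linarith [abs_nonneg (lam 1)]
      · linarith [abs_nonneg (lam 0)]
    rw [Real.norm_eq_abs]
    unfold Q1
    rw [abs_mul]
    have h2 : |(Real.log t + lam (if ε = 1 then 0 else 1)) / 2 + 2 * Real.eulerMascheroniConstant +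
        2 * Lp| ≤ Real.log t + c := by
      refine (abs_add_le _ _).trans ?_
      have h3 : |(Real.log t + lam (if ε = 1 then 0 else 1)) / 2 +
          2 * Real.eulerMascheroniConstant| ≤ |(Real.log t + lam (if ε = 1 then 0 else 1)) / 2| +
          |2 * Real.eulerMascheroniConstant| := abs_add_le _ _
      have h4 : |(Real.log t + lam (if ε = 1 then 0 else 1)) / 2| ≤
          Real.log t + |lam (if ε = 1 then 0 else 1)| := by
        rw [abs_div, abs_of_pos (show (0 : ℝ) < 2 by norm_num)]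
        have h5 : |Real.log t + lam (if ε = 1 then 0 else 1)| ≤ |Real.log t| +
            |lam (if ε = 1 then 0 else 1)| := abs_add_le _ _
        rw [abs_of_nonneg hl0] at h5
        have h6 := abs_nonneg (lam (if ε = 1 then 0 else 1))
        linarith
      linarith
    calc |P1| * |(Real.log t + lam (if ε = 1 then 0 else 1)) / 2 +
          2 * Real.eulerMascheroniConstant + 2 * Lp| ≤ (|P1| + 1) * (Real.log t + c) := by
          apply mul_le_mul (by linarith) h2 (abs_nonneg _) (by positivity)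
      _ ≤ (|P1| + 1) * ((1 + c) * (1 + Real.log y)) := by
          apply mul_le_mul_of_nonneg_left _ (by positivity)
          nlinarith
      _ = _ := by ring
  rw [Real.norm_eq_abs, abs_of_nonneg (sub_nonneg.2 hxy')] at h1
  calc 3 / Real.pi ^ 2 * |∫ t in (x : ℝ)..(y : ℝ), Q1 (if ε = 1 then 0 else 1) (Real.log t)| ≤
        3 / Real.pi ^ 2 * ((|P1| + 1) * (1 + c) * (1 + Real.log y) * ((y : ℝ) - x)) :=
        mul_le_mul_of_nonneg_left h1 (by positivity)
    _ = _ := by ring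

/-- the change of the error over a short interval -/
theorem Ee_diff (hG : S_GWL) : ∃ K : ℝ, 0 < K ∧ ∀ ε : ℤ, (ε = 1 ∨ ε = -1) → ∀ (x y : ℕ), 1 ≤ x →
    x ≤ y → |Ee ε y - Ee ε x| ≤ K * (Real.sqrt ((y : ℝ) - x) * Real.sqrt y) *
      (1 + Real.log y) ^ 2 := by
  obtain ⟨C, hC, hG⟩ := hG
  obtain ⟨K, hK, hM⟩ := M0_bound
  refine ⟨C + K, by positivity, ?_⟩
  intro ε hε x y hx hxy
  have hx' : (1 : ℝ) ≤ x := by exact_mod_cast hx
  have hxy' : (x : ℝ) ≤ y := by exact_mod_cast hxy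
  have hly : 0 ≤ Real.log y := Real.log_nonneg (by linarith)
  have h2 : ∑ n ∈ Ioc 1 y, Lf ε n = ∑ n ∈ Ioc 1 x, Lf ε n + ∑ n ∈ Ioc x y, Lf ε n := by
    rw [← Finset.sum_union]
    · congr 1
      ext n
      simp only [Finset.mem_union, Finset.mem_Ioc]
      omega
    · rw [Finset.disjoint_left]
      intro n h3 h4
      simp only [Finset.mem_Ioc] at h3 h4
      omega
  have h3 : Ee ε y - Ee ε x = ∑ n ∈ Ioc x y, Lf ε n - (M0 ε y - M0 ε x) := by
    unfold Ee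
    rw [h2]
    ring
  have h4 : |∑ n ∈ Ioc x y, Lf ε n| ≤ C * (Real.sqrt ((y : ℝ) - x) * Real.sqrt y) *
      (1 + Real.log y) ^ 2 := by
    have h5 := hG ε hε y (Ioc x y) (by omega) (by
      intro n hn
      simp only [Finset.mem_Ioc] at hn ⊢
      omega)
    have h6 : ((Ioc x y).card : ℝ) = (y : ℝ) - x := by
      rw [Nat.card_Ioc, Nat.cast_sub hxy]
    rw [h6] at h5
    have h7 : lg y ^ (3 / 2 : ℝ) ≤ (1 + Real.log y) ^ 2 := by
      unfold lg
      rw [← Real.rpow_natCast]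
      exact Real.rpow_le_rpow_of_exponent_le (by linarith) (by norm_num)
    calc |∑ n ∈ Ioc x y, Lf ε n| ≤ ∑ n ∈ Ioc x y, |Lf ε n| := Finset.abs_sum_le_sum_abs _ _
      _ ≤ C * Real.sqrt ((y : ℝ) - x) * Real.sqrt y * lg y ^ (3 / 2 : ℝ) := h5
      _ = C * (Real.sqrt ((y : ℝ) - x) * Real.sqrt y) * lg y ^ (3 / 2 : ℝ) := by ring
      _ ≤ _ := mul_le_mul_of_nonneg_left h7 (by positivity)
  have h5 : |M0 ε y - M0 ε x| ≤ K * (Real.sqrt ((y : ℝ) - x) * Real.sqrt y) *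
      (1 + Real.log y) ^ 2 := by
    refine (hM ε x y hx hxy).trans ?_
    have h6 : (y : ℝ) - x ≤ Real.sqrt ((y : ℝ) - x) * Real.sqrt y := by
      have h7 : (y : ℝ) - x = Real.sqrt ((y : ℝ) - x) * Real.sqrt ((y : ℝ) - x) :=
        (Real.mul_self_sqrt (by linarith)).symm
      calc (y : ℝ) - x = Real.sqrt ((y : ℝ) - x) * Real.sqrt ((y : ℝ) - x) := h7
        _ ≤ Real.sqrt ((y : ℝ) - x) * Real.sqrt y :=
            mul_le_mul_of_nonneg_left (Real.sqrt_le_sqrt (by linarith)) (Real.sqrt_nonneg _)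
    have h8 : 1 + Real.log y ≤ (1 + Real.log y) ^ 2 := by nlinarith
    calc K * (1 + Real.log y) * ((y : ℝ) - x) = K * ((y : ℝ) - x) * (1 + Real.log y) := by ring
      _ ≤ K * (Real.sqrt ((y : ℝ) - x) * Real.sqrt y) * (1 + Real.log y) ^ 2 := by
          apply mul_le_mul _ h8 (by positivity) (by positivity)
          exact mul_le_mul_of_nonneg_left h6 hK.le
  rw [h3]
  calc |∑ n ∈ Ioc x y, Lf ε n - (M0 ε y - M0 ε x)| ≤ |∑ n ∈ Ioc x y, Lf ε n| +
        |M0 ε y - M0 ε x| := abs_sub _ _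
    _ ≤ _ := by linarith

theorem Ee_one (ε : ℤ) : Ee ε 1 = 0 := by
  unfold Ee M0
  simp

/-- the bound for large `X` -/
theorem large (hF : S_FIN) (hG : S_GWL) : ∃ C : ℝ, 0 < C ∧ ∀ᶠ X : ℕ in atTop, ∀ ε : ℤ,
    (ε = 1 ∨ ε = -1) → |Ee ε X| ≤ C * (X : ℝ) ^ (29 / 30 : ℝ) := by
  obtain ⟨-, C, hC, hF⟩ := hF
  obtain ⟨K, hK, hE⟩ := Ee_diff hG
  have hN : Tendsto (fun n : ℕ => (n : ℝ)) atTop atTop := tendsto_natCast_atTop_atTop
  have e1 : ∀ᶠ X : ℕ in atTop, Real.log X ≤ (X : ℝ) ^ (1 / 4 : ℝ) := by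
    have h := ((isLittleO_log_rpow_atTop (show (0 : ℝ) < 1 / 4 by norm_num)).bound
      (show (0 : ℝ) < 1 by norm_num))
    filter_upwards [hN.eventually h, eventually_ge_atTop 1] with X hX h1
    have h1' : (1 : ℝ) ≤ X := by exact_mod_cast h1
    rw [one_mul, Real.norm_eq_abs, Real.norm_eq_abs, abs_of_nonneg (Real.log_nonneg h1'),
      abs_of_nonneg (by positivity)] at hX
    exact hX
  have e2 : ∀ᶠ X : ℕ in atTop, Real.log X ^ (13 / 6 : ℝ) ≤ (X : ℝ) ^ (1 / 120 : ℝ) := by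
    have h := ((isLittleO_log_rpow_rpow_atTop (13 / 6 : ℝ)
      (show (0 : ℝ) < 1 / 120 by norm_num)).bound (show (0 : ℝ) < 1 by norm_num))
    filter_upwards [hN.eventually h, eventually_ge_atTop 1] with X hX h1
    have h1' : (1 : ℝ) ≤ X := by exact_mod_cast h1
    have h2 := Real.log_nonneg h1'
    rw [one_mul, Real.norm_eq_abs, Real.norm_eq_abs, abs_of_nonneg (by positivity),
      abs_of_nonneg (by positivity)] at hX
    exact hX
  have e3 : ∀ᶠ X : ℕ in atTop, 2 + Real.log X ≤ (X : ℝ) ^ (1 / 6 : ℝ) := by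
    have h := ((isLittleO_log_rpow_atTop (show (0 : ℝ) < 1 / 6 by norm_num)).bound
      (show (0 : ℝ) < 1 / 2 by norm_num))
    have h' := (tendsto_rpow_atTop (show (0 : ℝ) < 1 / 6 by norm_num)).eventually_ge_atTop 4
    filter_upwards [hN.eventually h, hN.eventually h', eventually_ge_atTop 1] with X hX hX2 h1
    have h1' : (1 : ℝ) ≤ X := by exact_mod_cast h1
    rw [Real.norm_eq_abs, Real.norm_eq_abs, abs_of_nonneg (Real.log_nonneg h1'),
      abs_of_nonneg (by positivity)] at hX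
    linarith
  refine ⟨C + 4 * K, by positivity, ?_⟩
  filter_upwards [e1, e2, e3, eventually_ge_atTop 16] with X h1 h2 h3 hX16 ε hε
  have hX16' : (16 : ℝ) ≤ X := by exact_mod_cast hX16
  have hX0 : (0 : ℝ) < X := by linarith
  have hX1 : (1 : ℝ) ≤ X := by linarith
  set Z : ℝ := (X : ℝ) ^ (1 / 4 : ℝ) with hZ
  have hZ2 : 2 ≤ Z := by
    have h4 : (16 : ℝ) ^ (1 / 4 : ℝ) = 2 := by
      rw [show (16 : ℝ) = 2 ^ (4 : ℝ) by norm_num, ← Real.rpow_mul (by norm_num)]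
      norm_num
    rw [← h4]
    exact Real.rpow_le_rpow (by norm_num) hX16' (by norm_num)
  have hZ4 : Z ^ 4 = X := by
    rw [hZ, ← Real.rpow_natCast, ← Real.rpow_mul hX0.le]
    norm_num
  set H : ℕ := ⌈Z⌉₊ with hH
  have hZH : Z ≤ H := Nat.le_ceil Z
  have hHZ : (H : ℝ) < Z + 1 := Nat.ceil_lt_add_one (by linarith)
  have hH2 : (H : ℝ) ≤ 2 * Z := by linarith
  have hHX : (H : ℝ) ≤ X := by
    rw [← hZ4]
    nlinarith [sq_nonneg (Z ^ 2 - 4), pow_pos (show 0 < Z by linarith) 3,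
      pow_pos (show 0 < Z by linarith) 2, mul_nonneg (show 0 ≤ Z - 2 by linarith)
        (pow_pos (show 0 < Z by linarith) 3).le, mul_nonneg (show 0 ≤ Z - 2 by linarith)
        (pow_pos (show 0 < Z by linarith) 2).le]
  have hHX' : H ≤ X := by exact_mod_cast hHX
  have hH1 : (1 : ℝ) ≤ H := by linarith
  have hH0 : (0 : ℝ) < H := by linarith
  -- the main theorem of the library
  have hfin := hF ε hε X H (by omega) (h1.trans hZH) hHX'
  rw [min_eq_right hZH] at hfin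
  have hsum : ∑ x ∈ Icc 1 X, (W ε x H - MT ε x H) = ∑ j ∈ Icc 1 H, (Ee ε (X + j) - Ee ε j) := by
    rw [← tele2]
    refine Finset.sum_congr rfl fun x hx => ?_
    exact W_MT ε (Finset.mem_Icc.1 hx).1 H
  have hkey : (H : ℝ) * Ee ε X = ∑ x ∈ Icc 1 X, (W ε x H - MT ε x H) -
      ∑ j ∈ Icc 1 H, (Ee ε (X + j) - Ee ε X) + ∑ j ∈ Icc 1 H, (Ee ε j - Ee ε 1) := by
    rw [hsum, ← Finset.sum_sub_distrib, ← Finset.sum_add_distrib]
    have h5 : ∀ j ∈ Icc 1 H, (Ee ε (X + j) - Ee ε j - (Ee ε (X + j) - Ee ε X) +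
        (Ee ε j - Ee ε 1)) = Ee ε X := by
      intro j _
      rw [Ee_one]
      ring
    rw [Finset.sum_congr rfl h5, Finset.sum_const, Nat.card_Icc, nsmul_eq_mul]
    simp
  -- the edges
  have hlX : 0 ≤ Real.log X := Real.log_nonneg hX1
  have hsq : Real.sqrt H * Real.sqrt (2 * X) ≤ 2 * (X : ℝ) ^ (5 / 8 : ℝ) := by
    rw [← Real.sqrt_mul hH0.le]
    apply Real.sqrt_le_iff.2
    refine ⟨by positivity, ?_⟩
    have h6 : (2 * (X : ℝ) ^ (5 / 8 : ℝ)) ^ 2 = 4 * (Z * X) := by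
      rw [mul_pow, hZ, ← Real.rpow_natCast ((X : ℝ) ^ (5 / 8 : ℝ)), ← Real.rpow_mul hX0.le,
        ← Real.rpow_add_one hX0.ne']
      norm_num
    rw [h6]
    nlinarith
  have hlog : ∀ y : ℕ, 1 ≤ y → (y : ℝ) ≤ 2 * X → (1 + Real.log y) ^ 2 ≤ (X : ℝ) ^ (1 / 3 : ℝ) := by
    intro y hy hy2
    have hy' : (1 : ℝ) ≤ y := by exact_mod_cast hy
    have h7 : Real.log y ≤ Real.log 2 + Real.log X := by
      rw [← Real.log_mul (by norm_num) hX0.ne']
      exact Real.log_le_log (by linarith) hy2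
    have h8 : Real.log 2 ≤ 1 := by
      have := Real.log_two_lt_d9
      linarith
    have h9 : 0 ≤ Real.log y := Real.log_nonneg hy'
    have h10 : 1 + Real.log y ≤ (X : ℝ) ^ (1 / 6 : ℝ) := by linarith
    have h11 : ((X : ℝ) ^ (1 / 6 : ℝ)) ^ 2 = (X : ℝ) ^ (1 / 3 : ℝ) := by
      rw [← Real.rpow_natCast, ← Real.rpow_mul hX0.le]
      norm_num
    rw [← h11]
    exact pow_le_pow_left₀ (by linarith) h10 2
  have hbd : ∀ x y : ℕ, 1 ≤ x → x ≤ y → (y : ℝ) - x ≤ H → (y : ℝ) ≤ 2 * X →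
      |Ee ε y - Ee ε x| ≤ 2 * K * (X : ℝ) ^ (29 / 30 : ℝ) := by
    intro x y hx hxy hd hy
    have hxy' : (x : ℝ) ≤ y := by exact_mod_cast hxy
    refine (hE ε hε x y hx hxy).trans ?_
    have h12 := hlog y (by omega) hy
    have h13 : Real.sqrt ((y : ℝ) - x) * Real.sqrt y ≤ 2 * (X : ℝ) ^ (5 / 8 : ℝ) :=
      (mul_le_mul (Real.sqrt_le_sqrt hd) (Real.sqrt_le_sqrt hy) (Real.sqrt_nonneg _)
        (Real.sqrt_nonneg _)).trans hsq
    calc K * (Real.sqrt ((y : ℝ) - x) * Real.sqrt y) * (1 + Real.log y) ^ 2 ≤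
          K * (2 * (X : ℝ) ^ (5 / 8 : ℝ)) * (X : ℝ) ^ (1 / 3 : ℝ) := by
          apply mul_le_mul (mul_le_mul_of_nonneg_left h13 hK.le) h12 (by positivity)
            (by positivity)
      _ = 2 * K * ((X : ℝ) ^ (5 / 8 : ℝ) * (X : ℝ) ^ (1 / 3 : ℝ)) := by ring
      _ = 2 * K * (X : ℝ) ^ (5 / 8 + 1 / 3 : ℝ) := by rw [Real.rpow_add hX0]
      _ ≤ 2 * K * (X : ℝ) ^ (29 / 30 : ℝ) := by
          apply mul_le_mul_of_nonneg_left _ (by positivity)
          exact Real.rpow_le_rpow_of_exponent_le hX1 (by norm_num)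
  have hs1 : |∑ j ∈ Icc 1 H, (Ee ε (X + j) - Ee ε X)| ≤
      H * (2 * K * (X : ℝ) ^ (29 / 30 : ℝ)) := by
    refine (Finset.abs_sum_le_sum_abs _ _).trans ?_
    have h14 : ∀ j ∈ Icc 1 H, |Ee ε (X + j) - Ee ε X| ≤ 2 * K * (X : ℝ) ^ (29 / 30 : ℝ) := by
      intro j hj
      have hj' : (j : ℝ) ≤ H := by exact_mod_cast (Finset.mem_Icc.1 hj).2
      apply hbd X (X + j) (by omega) (by omega)
      · push_cast; linarith
      · push_cast; linarith
    refine (Finset.sum_le_sum h14).trans (le_of_eq ?_)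
    rw [Finset.sum_const, Nat.card_Icc, nsmul_eq_mul]
    simp
  have hs2 : |∑ j ∈ Icc 1 H, (Ee ε j - Ee ε 1)| ≤ H * (2 * K * (X : ℝ) ^ (29 / 30 : ℝ)) := by
    refine (Finset.abs_sum_le_sum_abs _ _).trans ?_
    have h14 : ∀ j ∈ Icc 1 H, |Ee ε j - Ee ε 1| ≤ 2 * K * (X : ℝ) ^ (29 / 30 : ℝ) := by
      intro j hj
      have hj1 := (Finset.mem_Icc.1 hj).1
      have hj' : (j : ℝ) ≤ H := by exact_mod_cast (Finset.mem_Icc.1 hj).2
      apply hbd 1 j le_rfl hj1
      · push_cast; linarith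
      · linarith
    refine (Finset.sum_le_sum h14).trans (le_of_eq ?_)
    rw [Finset.sum_const, Nat.card_Icc, nsmul_eq_mul]
    simp
  have hs0 : |∑ x ∈ Icc 1 X, (W ε x H - MT ε x H)| ≤ H * (C * (X : ℝ) ^ (29 / 30 : ℝ)) := by
    refine (Finset.abs_sum_le_sum_abs _ _).trans (hfin.trans ?_)
    have hl1 : 1 ≤ Real.log X := by
      rw [Real.le_log_iff_exp_le hX0]
      have := Real.exp_one_lt_d9
      linarith
    have hll : Real.log (Real.log X) ≤ Real.log X := (Real.log_le_self (by linarith))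
    have hll0 : 0 ≤ Real.log (Real.log X) := Real.log_nonneg hl1
    have h15 : Real.log X ^ (7 / 6 : ℝ) * Real.log (Real.log X) ≤ (X : ℝ) ^ (1 / 120 : ℝ) := by
      calc Real.log X ^ (7 / 6 : ℝ) * Real.log (Real.log X) ≤
            Real.log X ^ (7 / 6 : ℝ) * Real.log X := mul_le_mul_of_nonneg_left hll (by positivity)
        _ = Real.log X ^ (7 / 6 + 1 : ℝ) := by rw [Real.rpow_add_one (by linarith)]
        _ = Real.log X ^ (13 / 6 : ℝ) := by norm_num
        _ ≤ _ := h2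
    have h16 : Z ^ (1 / 6 : ℝ) = (X : ℝ) ^ (1 / 24 : ℝ) := by
      rw [hZ, ← Real.rpow_mul hX0.le]
      norm_num
    rw [h16]
    have h17 : 0 < (X : ℝ) ^ (1 / 24 : ℝ) := by positivity
    calc C * X * H * (Real.log X ^ (7 / 6 : ℝ) * Real.log (Real.log X) / (X : ℝ) ^ (1 / 24 : ℝ)) ≤
          C * X * H * ((X : ℝ) ^ (1 / 120 : ℝ) / (X : ℝ) ^ (1 / 24 : ℝ)) := by
          apply mul_le_mul_of_nonneg_left _ (by positivity)
          exact div_le_div_of_nonneg_right h15 h17.le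
      _ = H * (C * (X * ((X : ℝ) ^ (1 / 120 : ℝ) / (X : ℝ) ^ (1 / 24 : ℝ)))) := by ring
      _ = H * (C * (X : ℝ) ^ (29 / 30 : ℝ)) := by
          rw [← Real.rpow_sub hX0]
          nth_rewrite 1 [← Real.rpow_one (X : ℝ)]
          rw [← Real.rpow_add hX0]
          norm_num
  have hfinal : H * |Ee ε X| ≤ H * ((C + 4 * K) * (X : ℝ) ^ (29 / 30 : ℝ)) := by
    have h18 : (H : ℝ) * |Ee ε X| = |(H : ℝ) * Ee ε X| := by
      rw [abs_mul, abs_of_pos hH0]
    rw [h18, hkey]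
    have h19 := abs_add_le (∑ x ∈ Icc 1 X, (W ε x H - MT ε x H) -
      ∑ j ∈ Icc 1 H, (Ee ε (X + j) - Ee ε X)) (∑ j ∈ Icc 1 H, (Ee ε j - Ee ε 1))
    have h20 := abs_sub (∑ x ∈ Icc 1 X, (W ε x H - MT ε x H))
      (∑ j ∈ Icc 1 H, (Ee ε (X + j) - Ee ε X))
    linarith
  exact le_of_mul_le_mul_left hfinal hH0

theorem t_FM0 (hF : S_FIN) (hG : S_GWL) : S_FM0 := by
  obtain ⟨C, hC, h⟩ := large hF hG
  obtain ⟨X₀, hX₀⟩ := eventually_atTop.1 h
  set C' : ℝ := ∑ X ∈ range X₀, (|Ee 1 X| + |Ee (-1) X|) with hC'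
  have hC'0 : 0 ≤ C' := Finset.sum_nonneg fun _ _ => by positivity
  refine ⟨C + C', by positivity, ?_⟩
  intro ε hε X hX
  have hX' : (1 : ℝ) ≤ X := by exact_mod_cast hX
  have hp : 1 ≤ (X : ℝ) ^ (29 / 30 : ℝ) := Real.one_le_rpow hX' (by norm_num)
  show |Ee ε X| ≤ _
  rcases Nat.lt_or_ge X X₀ with hlt | hge
  · have h1 : |Ee 1 X| + |Ee (-1) X| ≤ C' :=
      Finset.single_le_sum (f := fun X => |Ee 1 X| + |Ee (-1) X|) (fun _ _ => by positivity)
        (Finset.mem_range.2 hlt)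
    have h2 : |Ee ε X| ≤ C' := by
      rcases hε with rfl | rfl
      · linarith [abs_nonneg (Ee (-1) X)]
      · linarith [abs_nonneg (Ee 1 X)]
    nlinarith
  · have h1 := hX₀ X hge ε hε
    nlinarith

end

end Pool.Agent.H50.BR
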