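import Pool.Agent.H28.BR.Stm

/-!
# Project BR, module TMG: Abel summation over the denominators
-/

set_option autoImplicit false

namespace Pool.Agent.H50.BR

open Finset Filter Topology MeasureTheory Pool.Agent.H28.BR

noncomputable section

theorem nd_nonneg (x : ℝ) : 0 ≤ nd x := abs_nonneg _

theorem gd_nonneg {L : ℝ} (hL : 0 ≤ L) (x : ℝ) : 0 ≤ gd L x := by
  unfold gd
  have := nd_nonneg x
  positivity

theorem gd_mono {L L' : ℝ} (hL : 0 ≤ L) (h : L ≤ L') (x : ℝ) : gd L x ≤ gd L' x := by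
  unfold gd
  have hn := nd_nonneg x
  have h1 : 0 < 1 + 2 * L * nd x := by positivity
  have hL' : 0 ≤ L' := hL.trans h
  have h2 : 0 < 1 + 2 * L' * nd x := by positivity
  rw [div_le_div_iff₀ h1 h2]
  nlinarith

theorem Psi_nonneg (s : ℕ) {L : ℝ} (hL : 0 ≤ L) (β : ℝ) : 0 ≤ Psi s L β :=
  Finset.sum_nonneg fun _ _ => gd_nonneg hL _

theorem Psi_mono (s : ℕ) {L L' : ℝ} (hL : 0 ≤ L) (h : L ≤ L') (β : ℝ) : Psi s L β ≤ Psi s L' β :=
  Finset.sum_le_sum fun _ _ => gd_mono hL h _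

/-- Abel summation with a majorant of the partial sums. -/
theorem abel (P f B : ℕ → ℝ) (s₁ : ℕ) (h1 : 1 ≤ s₁) (hP : ∀ s, 0 ≤ P s) (hf : ∀ s, 0 ≤ f s)
    (hfa : ∀ s, s₁ ≤ s → f (s + 1) ≤ f s) (M : ℕ) (hM : s₁ ≤ M)
    (hB : ∀ s, s₁ ≤ s → s ≤ M → ∑ i ∈ Icc 1 s, P i ≤ B s) :
    ∑ s ∈ Icc s₁ M, f s * P s ≤ f s₁ * B s₁ + ∑ s ∈ Ioc s₁ M, f s * (B s - B (s - 1)) := by
  have key : ∀ N, s₁ ≤ N → N ≤ M → ∑ s ∈ Icc s₁ N, f s * P s ≤
      f s₁ * B s₁ + ∑ s ∈ Ioc s₁ N, f s * (B s - B (s - 1)) -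
        f N * (B N - ∑ i ∈ Icc 1 N, P i) := by
    intro N hN
    induction N, hN using Nat.le_induction with
    | base =>
      intro _
      have h2 : P s₁ ≤ ∑ i ∈ Icc 1 s₁, P i :=
        Finset.single_le_sum (f := P) (fun i _ => hP i) (Finset.mem_Icc.2 ⟨h1, le_rfl⟩)
      rw [Finset.Icc_self, Finset.sum_singleton, Finset.Ioc_self, Finset.sum_empty]
      have := mul_le_mul_of_nonneg_left h2 (hf s₁)
      linarith
    | succ N hN ih =>
      intro hNM
      have h3 := ih (by omega)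
      rw [← Finset.insert_Icc_right_eq_Icc_add_one (by omega : s₁ ≤ N + 1),
        Finset.sum_insert (by simp),
        ← Finset.insert_Ioc_right_eq_Ioc_add_one hN, Finset.sum_insert (by simp),
        ← Finset.insert_Icc_right_eq_Icc_add_one (by omega : 1 ≤ N + 1),
        Finset.sum_insert (by simp)]
      have h4 := hB N hN (by omega)
      have h5 := mul_nonneg (sub_nonneg.2 (hfa N hN)) (sub_nonneg.2 h4)
      have h6 : N + 1 - 1 = N := rfl
      rw [h6]
      nlinarith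
  have h7 := key M hM le_rfl
  have h8 := mul_nonneg (hf M) (sub_nonneg.2 (hB M hM le_rfl))
  linarith

/-- the majorant `s² (1 + log s)` -/
def Gf (s : ℕ) : ℝ := (s : ℝ) ^ 2 * (1 + Real.log s)

theorem Gf_diff (s : ℕ) (hs : 1 ≤ s) : Gf s - Gf (s - 1) ≤ 3 * (s : ℝ) * (1 + Real.log s) := by
  rcases Nat.eq_or_lt_of_le hs with h | h
  · subst h
    simp [Gf]
  · obtain ⟨n, rfl⟩ : ∃ n, s = n + 1 := ⟨s - 1, by omega⟩
    have hn : 1 ≤ n := by omega
    have hn' : (1 : ℝ) ≤ n := by exact_mod_cast hn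
    have h1 : n + 1 - 1 = n := rfl
    rw [h1]
    unfold Gf
    push_cast
    have h2 : Real.log ((n : ℝ) + 1) - Real.log n ≤ 1 / n := by
      rw [← Real.log_div (by positivity) (by positivity)]
      have h3 := Real.log_le_sub_one_of_pos (show (0 : ℝ) < ((n : ℝ) + 1) / n by positivity)
      have h4 : ((n : ℝ) + 1) / n - 1 = 1 / n := by field_simp; ring
      linarith
    have h5 : 0 ≤ Real.log ((n : ℝ) + 1) := Real.log_nonneg (by linarith)
    have h6 : (n : ℝ) ^ 2 * (Real.log ((n : ℝ) + 1) - Real.log n) ≤ n := by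
      calc (n : ℝ) ^ 2 * (Real.log ((n : ℝ) + 1) - Real.log n) ≤ (n : ℝ) ^ 2 * (1 / n) :=
            mul_le_mul_of_nonneg_left h2 (by positivity)
        _ = n := by field_simp
    nlinarith

/-- `e^{-t²} (1+t)² ≤ 2` -/
theorem gauss1 (t : ℝ) : Real.exp (-t ^ 2) * (1 + t) ^ 2 ≤ 2 := by
  have h1 : 1 + t ^ 2 ≤ Real.exp (t ^ 2) := by
    have := Real.add_one_le_exp (t ^ 2)
    linarith
  have h2 : (1 + t) ^ 2 ≤ 2 * Real.exp (t ^ 2) := by nlinarith [sq_nonneg (1 - t)]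
  calc Real.exp (-t ^ 2) * (1 + t) ^ 2 ≤ Real.exp (-t ^ 2) * (2 * Real.exp (t ^ 2)) :=
        mul_le_mul_of_nonneg_left h2 (Real.exp_pos _).le
    _ = 2 := by
        rw [mul_left_comm, ← Real.exp_add]
        simp

/-- `t e^{-t²} (1+t)² ≤ 4` -/
theorem gauss2 {t : ℝ} (ht : 0 ≤ t) : t * Real.exp (-t ^ 2) * (1 + t) ^ 2 ≤ 4 := by
  have h1 : 1 + t ^ 2 / 2 ≤ Real.exp (t ^ 2 / 2) := by
    have := Real.add_one_le_exp (t ^ 2 / 2)
    linarith
  have h2 : (1 + t) ^ 2 ≤ 4 * Real.exp (t ^ 2 / 2) := by nlinarith [sq_nonneg (1 - t)]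
  have h3 : t ≤ Real.exp (t ^ 2 / 2) := by nlinarith [sq_nonneg (1 - t)]
  have h4 : t * (1 + t) ^ 2 ≤ Real.exp (t ^ 2 / 2) * (4 * Real.exp (t ^ 2 / 2)) :=
    mul_le_mul h3 h2 (by positivity) (Real.exp_pos _).le
  calc t * Real.exp (-t ^ 2) * (1 + t) ^ 2 = Real.exp (-t ^ 2) * (t * (1 + t) ^ 2) := by ring
    _ ≤ Real.exp (-t ^ 2) * (Real.exp (t ^ 2 / 2) * (4 * Real.exp (t ^ 2 / 2))) :=
        mul_le_mul_of_nonneg_left h4 (Real.exp_pos _).le
    _ = 4 * (Real.exp (-t ^ 2) * (Real.exp (t ^ 2 / 2) * Real.exp (t ^ 2 / 2))) := by ring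
    _ = 4 := by
        rw [← Real.exp_add, ← Real.exp_add]
        have : -t ^ 2 + (t ^ 2 / 2 + t ^ 2 / 2) = 0 := by ring
        rw [this, Real.exp_zero, mul_one]

/-- `∑ Y²/(Y+s)² ≤ Y` -/
theorem tele {Y : ℝ} (hY : 0 < Y) (M : ℕ) : ∑ s ∈ Icc 1 M, Y ^ 2 / (Y + s) ^ 2 ≤ Y := by
  have key : ∑ s ∈ Icc 1 M, Y ^ 2 / (Y + s) ^ 2 ≤ Y ^ 2 * (1 / Y - 1 / (Y + M)) := by
    induction M with
    | zero => simp
    | succ M ih =>
      rw [← Finset.insert_Icc_right_eq_Icc_add_one (by omega : 1 ≤ M + 1),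
        Finset.sum_insert (by simp)]
      have h1 : Y ^ 2 / (Y + ((M + 1 : ℕ) : ℝ)) ^ 2 ≤
          Y ^ 2 * (1 / (Y + M) - 1 / (Y + ((M + 1 : ℕ) : ℝ))) := by
        push_cast
        have h2 : (0 : ℝ) ≤ M := Nat.cast_nonneg M
        have h3 : 0 < Y + M := by positivity
        have h4 : 0 < Y + (M + 1) := by positivity
        have h5 : 1 / (Y + M) - 1 / (Y + (M + 1)) = 1 / ((Y + M) * (Y + (M + 1))) := by
          field_simp
          ring
        rw [h5, div_eq_mul_one_div]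
        apply mul_le_mul_of_nonneg_left _ (by positivity)
        apply one_div_le_one_div_of_le (by positivity)
        nlinarith
      linarith
  have h6 : (0 : ℝ) ≤ 1 / (Y + M) := by positivity
  have h7 : Y ^ 2 * (1 / Y - 1 / (Y + M)) ≤ Y ^ 2 * (1 / Y) := by
    apply mul_le_mul_of_nonneg_left _ (by positivity)
    linarith
  have h8 : Y ^ 2 * (1 / Y) = Y := by field_simp
  linarith

/-- the logarithmic Gaussian sum -/
theorem gsum {Y : ℝ} (hY : 0 < Y) {X : ℕ} (hX : 1 ≤ X) (hYX : Y ≤ 6 * Real.sqrt X) (M : ℕ) :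
    ∑ s ∈ Icc 1 M, (1 + Real.log s) * Real.exp (-((s : ℝ) ^ 2 / Y ^ 2)) ≤ 26 * Y * lg X := by
  have hX' : (1 : ℝ) ≤ X := by exact_mod_cast hX
  have hlX : 0 ≤ Real.log X := Real.log_nonneg hX'
  have hsX : 0 < Real.sqrt X := Real.sqrt_pos.2 (by linarith)
  have h1 : ∀ s ∈ Icc 1 M, (1 + Real.log s) * Real.exp (-((s : ℝ) ^ 2 / Y ^ 2)) ≤
      26 * lg X * (Y ^ 2 / (Y + s) ^ 2) := by
    intro s hs
    have hs1 : 1 ≤ s := (Finset.mem_Icc.1 hs).1
    have hs' : (1 : ℝ) ≤ s := by exact_mod_cast hs1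
    set t : ℝ := s / Y with ht
    have ht0 : 0 < t := by positivity
    have h2 : (s : ℝ) ^ 2 / Y ^ 2 = t ^ 2 := by rw [ht, div_pow]
    have h3 : Y ^ 2 / (Y + s) ^ 2 = 1 / (1 + t) ^ 2 := by
      rw [ht]
      field_simp
    have h4 : Real.log s ≤ Real.log X / 2 + 6 * t := by
      have h5 : Real.log s = Real.log (Real.sqrt X) + Real.log (s / Real.sqrt X) := by
        rw [← Real.log_mul (by positivity) (by positivity)]
        congr 1
        field_simp
      have h6 : Real.log (s / Real.sqrt X) ≤ s / Real.sqrt X := by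
        have := Real.log_le_sub_one_of_pos (show (0 : ℝ) < s / Real.sqrt X by positivity)
        linarith
      have h7 : s / Real.sqrt X ≤ 6 * t := by
        rw [ht, div_le_iff₀ hsX]
        calc (s : ℝ) = s / Y * Y := by field_simp
          _ ≤ s / Y * (6 * Real.sqrt X) := mul_le_mul_of_nonneg_left hYX (by positivity)
          _ = 6 * (s / Y) * Real.sqrt X := by ring
      rw [h5, Real.log_sqrt (by linarith)]
      linarith
    have h8 : 0 < (1 + t) ^ 2 := by positivity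
    rw [h2, h3, mul_one_div, le_div_iff₀ h8]
    have h9 := gauss1 t
    have h10 := gauss2 ht0.le
    have h11 : 0 ≤ Real.exp (-t ^ 2) * (1 + t) ^ 2 := by positivity
    have h12 : (1 + Real.log s) * Real.exp (-t ^ 2) * (1 + t) ^ 2 ≤
        (lg X + 6 * t) * (Real.exp (-t ^ 2) * (1 + t) ^ 2) := by
      rw [mul_assoc]
      apply mul_le_mul_of_nonneg_right _ h11
      unfold lg
      linarith
    have h13 : 1 ≤ lg X := by unfold lg; linarith
    calc (1 + Real.log s) * Real.exp (-t ^ 2) * (1 + t) ^ 2 ≤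
          (lg X + 6 * t) * (Real.exp (-t ^ 2) * (1 + t) ^ 2) := h12
      _ = lg X * (Real.exp (-t ^ 2) * (1 + t) ^ 2) +
          6 * (t * Real.exp (-t ^ 2) * (1 + t) ^ 2) := by ring
      _ ≤ lg X * 2 + 6 * 4 := by
          have := mul_le_mul_of_nonneg_left h9 (show 0 ≤ lg X by linarith)
          linarith
      _ ≤ 26 * lg X := by linarith
  calc ∑ s ∈ Icc 1 M, (1 + Real.log s) * Real.exp (-((s : ℝ) ^ 2 / Y ^ 2)) ≤
        ∑ s ∈ Icc 1 M, 26 * lg X * (Y ^ 2 / (Y + s) ^ 2) := Finset.sum_le_sum h1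
    _ = 26 * lg X * ∑ s ∈ Icc 1 M, Y ^ 2 / (Y + s) ^ 2 := by rw [Finset.mul_sum]
    _ ≤ 26 * lg X * Y := by
        apply mul_le_mul_of_nonneg_left (tele hY M)
        unfold lg
        positivity
    _ = 26 * Y * lg X := by ring

/-- harmonic sum -/
theorem harm (S : ℕ) : ∑ s ∈ Icc 1 S, 1 / (s : ℝ) ≤ 1 + Real.log S := by
  have h1 := harmonic_le_one_add_log S
  have h2 : ((harmonic S : ℚ) : ℝ) = ∑ s ∈ Icc 1 S, 1 / (s : ℝ) := by
    rw [harmonic_eq_sum_Icc]
    push_cast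
    simp
  rw [← h2]
  exact h1

theorem t_TMG (hFAR : S_FAR) (hGAP : S_GAP) : S_TMG := by
  obtain ⟨C₀, hC₀, hfar⟩ := hFAR
  refine ⟨480 * C₀, by positivity, ?_⟩
  intro θ b q X hX hA m g M hm hg
  have hX' : (1 : ℝ) ≤ X := by exact_mod_cast hX
  have hm' : (1 : ℝ) ≤ m := by exact_mod_cast hm
  have hg' : (1 : ℝ) ≤ g := by exact_mod_cast hg
  have hq : 1 ≤ q := hA.1
  have hq' : (1 : ℝ) ≤ q := by exact_mod_cast hq
  have hlq : 0 ≤ Real.log q := Real.log_nonneg hq'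
  have hlX : 0 ≤ Real.log X := Real.log_nonneg hX'
  have hlg : 1 ≤ lg X := by unfold lg; linarith
  have hsX : 0 < Real.sqrt X := Real.sqrt_pos.2 (by linarith)
  set Y : ℝ := Real.sqrt (32 * X) / (g : ℝ) ^ 2 with hYd
  have hY : 0 < Y := by positivity
  have hY6 : Y ≤ 6 * (Real.sqrt X / (g : ℝ) ^ 2) := by
    have h1 : Real.sqrt (32 * X) ≤ 6 * Real.sqrt X := by
      rw [show (6 : ℝ) * Real.sqrt X = Real.sqrt (36 * X) by
        rw [Real.sqrt_mul (by norm_num), show (36 : ℝ) = 6 ^ 2 by norm_num,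
          Real.sqrt_sq (by norm_num)]]
      apply Real.sqrt_le_sqrt
      linarith
    rw [hYd, ← mul_div_assoc]
    gcongr
  have hYX : Y ≤ 6 * Real.sqrt X := by
    refine hY6.trans ?_
    have : Real.sqrt X / (g : ℝ) ^ 2 ≤ Real.sqrt X := div_le_self hsX.le (one_le_pow₀ hg')
    linarith
  have hYsq : Y ^ 2 = 32 * X / (g : ℝ) ^ 4 := by
    rw [hYd, div_pow, Real.sq_sqrt (by positivity)]
    ring_nf
  have hexp : ∀ s : ℕ, -((s : ℝ) ^ 2 * (g : ℝ) ^ 4 / (32 * X)) = -((s : ℝ) ^ 2 / Y ^ 2) := by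
    intro s
    rw [hYsq]
    field_simp
  set L : ℝ := (X : ℝ) / (8 * m) + 1 with hLd
  have hL : 0 ≤ L := by positivity
  set P : ℕ → ℝ := fun s => Psi s L (8 * m * θ) with hPd
  set f : ℕ → ℝ := fun s => 1 / (s : ℝ) * Real.exp (-((s : ℝ) ^ 2 / Y ^ 2)) with hfd
  have hP : ∀ s, 0 ≤ P s := fun s => Psi_nonneg s hL _
  have hf : ∀ s, 0 ≤ f s := fun s => by simp only [hfd]; positivity
  have hf1 : ∀ s, f s ≤ 1 / (s : ℝ) := fun s => by
    simp only [hfd]
    apply mul_le_of_le_one_right (by positivity)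
    rw [Real.exp_le_one_iff, neg_nonpos]
    positivity
  have hfa : ∀ s, 1 ≤ s → f (s + 1) ≤ f s := by
    intro s hs
    have hs' : (1 : ℝ) ≤ s := by exact_mod_cast hs
    simp only [hfd]
    push_cast
    gcongr <;> linarith
  have hTT : TT X θ m g M = ∑ s ∈ Icc 1 M, f s * P s := by
    unfold TT
    refine Finset.sum_congr rfl fun s _ => ?_
    rw [hexp s]
  have hgs := gsum hY hX hYX
  -- splitting
  obtain ⟨S₁, hqlt, hqge⟩ : ∃ S₁ : ℕ, q < 128 * m * (S₁ + 1) ∧ 128 * m * S₁ ≤ q :=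
    ⟨q / (128 * m), Nat.lt_mul_div_succ q (by positivity), Nat.mul_div_le q (128 * m)⟩
  have hsplit : ∑ s ∈ Icc 1 M, f s * P s ≤
      ∑ s ∈ Icc 1 S₁, f s * P s + ∑ s ∈ Icc (S₁ + 1) M, f s * P s := by
    rw [← Finset.sum_union]
    · apply Finset.sum_le_sum_of_subset_of_nonneg
      · intro s hs
        simp only [Finset.mem_union, Finset.mem_Icc] at hs ⊢
        omega
      · intro s _ _
        exact mul_nonneg (hf s) (hP s)
    · rw [Finset.disjoint_left]
      intro s hs hs2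
      simp only [Finset.mem_Icc] at hs hs2
      omega
  have hIf : 0 ≤ (if m ≤ q then (q : ℝ) * (1 + Real.log q) else 0) := by
    split_ifs <;> positivity
  set I : ℝ := (if m ≤ q then (q : ℝ) * (1 + Real.log q) else 0) with hI
  have hI1 : 1 ≤ S₁ → I = (q : ℝ) * (1 + Real.log q) := by
    intro h
    rw [hI, if_pos]
    nlinarith
  have hS₁q : S₁ ≤ q := by nlinarith
  -- first part
  have hpart1 : ∑ s ∈ Icc 1 S₁, f s * P s ≤ 12 * C₀ * I := by
    rcases Nat.eq_zero_or_pos S₁ with h0 | h0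
    · rw [h0]
      simp only [show Icc 1 0 = (∅ : Finset ℕ) from rfl, Finset.sum_empty]
      positivity
    · rw [hI1 h0]
      have hS₁' : (1 : ℝ) ≤ S₁ := by exact_mod_cast h0
      have hS₁q' : (S₁ : ℝ) ≤ q := by exact_mod_cast hS₁q
      set B : ℕ → ℝ := fun s => 2 * C₀ * ((q : ℝ) * s + Gf s) with hBd
      have hB : ∀ s, 1 ≤ s → s ≤ S₁ → ∑ i ∈ Icc 1 s, P i ≤ B s := by
        intro s hs hsS
        have h1 : ∀ i ∈ Icc 1 s, P i ≤ 2 * Psi i ((q : ℝ) * s) (8 * m * θ) := by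
          intro i hi
          rw [Finset.mem_Icc] at hi
          have h2 : 128 * m * i ≤ q := (Nat.mul_le_mul_left _ (hi.2.trans hsS)).trans hqge
          have h3 := hGAP θ b q X hA m i L hm hi.1 h2 hL
          have h4 : (i : ℝ) ≤ s := by exact_mod_cast hi.2
          have h5 := Psi_mono i (L := (q : ℝ) * i) (L' := (q : ℝ) * s) (by positivity)
            (mul_le_mul_of_nonneg_left h4 (by positivity)) (8 * m * θ)
          simp only [hPd]
          linarith
        have h6 := hfar s ((q : ℝ) * s) (8 * m * θ) hs (by positivity)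
        calc ∑ i ∈ Icc 1 s, P i ≤ ∑ i ∈ Icc 1 s, 2 * Psi i ((q : ℝ) * s) (8 * m * θ) :=
              Finset.sum_le_sum h1
          _ = 2 * ∑ i ∈ Icc 1 s, Psi i ((q : ℝ) * s) (8 * m * θ) := by rw [Finset.mul_sum]
          _ ≤ 2 * (C₀ * ((q : ℝ) * s + (s : ℝ) ^ 2 * (1 + Real.log s))) := by linarith
          _ = B s := by simp only [hBd, Gf]; ring
      have hab := abel P f B 1 le_rfl hP hf (fun s hs => hfa s hs) S₁ h0
        (fun s hs hs2 => hB s hs hs2)
      have ht : ∀ s ∈ Ioc 1 S₁, f s * (B s - B (s - 1)) ≤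
          2 * C₀ * ((q : ℝ) * (1 / (s : ℝ)) + 3 * (1 + Real.log q)) := by
        intro s hs
        rw [Finset.mem_Ioc] at hs
        have hs1 : 1 ≤ s := by omega
        have hs' : (1 : ℝ) ≤ s := by exact_mod_cast hs1
        have hsq : (s : ℝ) ≤ q := by exact_mod_cast hs.2.trans hS₁q
        have h1 : B s - B (s - 1) = 2 * C₀ * ((q : ℝ) + (Gf s - Gf (s - 1))) := by
          simp only [hBd]
          rw [Nat.cast_sub hs1]
          push_cast
          ring
        have h2 := Gf_diff s hs1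
        have h3 : Real.log s ≤ Real.log q := Real.log_le_log (by linarith) hsq
        have h4 : B s - B (s - 1) ≤ 2 * C₀ * ((q : ℝ) + 3 * s * (1 + Real.log q)) := by
          rw [h1]
          apply mul_le_mul_of_nonneg_left _ (by positivity)
          have : 3 * (s : ℝ) * (1 + Real.log s) ≤ 3 * s * (1 + Real.log q) := by
            apply mul_le_mul_of_nonneg_left _ (by positivity)
            linarith
          linarith
        calc f s * (B s - B (s - 1)) ≤ f s * (2 * C₀ * ((q : ℝ) + 3 * s * (1 + Real.log q))) :=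
              mul_le_mul_of_nonneg_left h4 (hf s)
          _ ≤ 1 / (s : ℝ) * (2 * C₀ * ((q : ℝ) + 3 * s * (1 + Real.log q))) :=
              mul_le_mul_of_nonneg_right (hf1 s) (by positivity)
          _ = _ := by field_simp
      have hsum : ∑ s ∈ Ioc 1 S₁, f s * (B s - B (s - 1)) ≤ 8 * C₀ * (q * (1 + Real.log q)) := by
        calc ∑ s ∈ Ioc 1 S₁, f s * (B s - B (s - 1)) ≤
              ∑ s ∈ Ioc 1 S₁, 2 * C₀ * ((q : ℝ) * (1 / (s : ℝ)) + 3 * (1 + Real.log q)) :=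
              Finset.sum_le_sum ht
          _ ≤ ∑ s ∈ Icc 1 S₁, 2 * C₀ * ((q : ℝ) * (1 / (s : ℝ)) + 3 * (1 + Real.log q)) := by
              apply Finset.sum_le_sum_of_subset_of_nonneg
              · exact Finset.Ioc_subset_Icc_self
              · intro s _ _
                positivity
          _ = 2 * C₀ * ((q : ℝ) * ∑ s ∈ Icc 1 S₁, 1 / (s : ℝ) + S₁ * (3 * (1 + Real.log q))) := by
              rw [← Finset.mul_sum, Finset.sum_add_distrib, ← Finset.mul_sum, Finset.sum_const,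
                Nat.card_Icc, Nat.add_sub_cancel, nsmul_eq_mul]
          _ ≤ 2 * C₀ * ((q : ℝ) * (1 + Real.log q) + q * (3 * (1 + Real.log q))) := by
              apply mul_le_mul_of_nonneg_left _ (by positivity)
              have h1 := harm S₁
              have h2 : Real.log S₁ ≤ Real.log q := Real.log_le_log (by linarith) hS₁q'
              have h3 : (q : ℝ) * ∑ s ∈ Icc 1 S₁, 1 / (s : ℝ) ≤ q * (1 + Real.log q) :=
                mul_le_mul_of_nonneg_left (by linarith) (by positivity)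
              have h4 : (S₁ : ℝ) * (3 * (1 + Real.log q)) ≤ q * (3 * (1 + Real.log q)) :=
                mul_le_mul_of_nonneg_right hS₁q' (by positivity)
              linarith
          _ = _ := by ring
      have hfirst : f 1 * B 1 ≤ 4 * C₀ * (q * (1 + Real.log q)) := by
        have h1 : B 1 = 2 * C₀ * ((q : ℝ) + 1) := by simp [hBd, Gf]
        have h2 : f 1 ≤ 1 := by simpa using hf1 1
        rw [h1]
        have h3 : 2 * C₀ * ((q : ℝ) + 1) ≤ 4 * C₀ * (q * (1 + Real.log q)) := by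
          have h4 : (q : ℝ) + 1 ≤ 2 * (q * (1 + Real.log q)) := by nlinarith
          nlinarith
        have h4 : 0 ≤ 2 * C₀ * ((q : ℝ) + 1) := by positivity
        nlinarith [hf 1]
      linarith
  -- second part
  have hpart2 : ∑ s ∈ Icc (S₁ + 1) M, f s * P s ≤
      C₀ * (16 * ((X : ℝ) * min (1 / (m : ℝ)) (1 / (q : ℝ))) + Y) + C₀ * (I + Y) +
        78 * C₀ * (Y * lg X) := by
    have hmin0 : 0 ≤ min (1 / (m : ℝ)) (1 / (q : ℝ)) := le_min (by positivity) (by positivity)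
    have hR : 0 ≤ C₀ * (16 * ((X : ℝ) * min (1 / (m : ℝ)) (1 / (q : ℝ))) + Y) + C₀ * (I + Y) +
        78 * C₀ * (Y * lg X) := by positivity
    rcases Nat.lt_or_ge M (S₁ + 1) with hM | hM
    · rw [Finset.Icc_eq_empty (by omega), Finset.sum_empty]
      exact hR
    set B : ℕ → ℝ := fun s => C₀ * (L + Gf s) with hBd
    have hB : ∀ s, S₁ + 1 ≤ s → s ≤ M → ∑ i ∈ Icc 1 s, P i ≤ B s := by
      intro s hs _
      exact hfar s L (8 * m * θ) (by omega) hL
    have hab := abel P f B (S₁ + 1) (by omega) hP hf (fun s hs => hfa s (by omega)) M hM hB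
    have ht : ∀ s ∈ Ioc (S₁ + 1) M, f s * (B s - B (s - 1)) ≤
        3 * C₀ * ((1 + Real.log s) * Real.exp (-((s : ℝ) ^ 2 / Y ^ 2))) := by
      intro s hs
      rw [Finset.mem_Ioc] at hs
      have hs1 : 1 ≤ s := by omega
      have hs' : (1 : ℝ) ≤ s := by exact_mod_cast hs1
      have h1 : B s - B (s - 1) ≤ C₀ * (3 * s * (1 + Real.log s)) := by
        have h2 := mul_le_mul_of_nonneg_left (Gf_diff s hs1) hC₀.le
        simp only [hBd]
        linarith
      calc f s * (B s - B (s - 1)) ≤ f s * (C₀ * (3 * s * (1 + Real.log s))) :=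
            mul_le_mul_of_nonneg_left h1 (hf s)
        _ = _ := by
            simp only [hfd]
            field_simp
    have hsum : ∑ s ∈ Ioc (S₁ + 1) M, f s * (B s - B (s - 1)) ≤ 78 * C₀ * (Y * lg X) := by
      calc ∑ s ∈ Ioc (S₁ + 1) M, f s * (B s - B (s - 1)) ≤
            ∑ s ∈ Ioc (S₁ + 1) M, 3 * C₀ * ((1 + Real.log s) * Real.exp (-((s : ℝ) ^ 2 / Y ^ 2))) :=
            Finset.sum_le_sum ht
        _ ≤ ∑ s ∈ Icc 1 M, 3 * C₀ * ((1 + Real.log s) * Real.exp (-((s : ℝ) ^ 2 / Y ^ 2))) := by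
            apply Finset.sum_le_sum_of_subset_of_nonneg
            · intro s hs
              simp only [Finset.mem_Ioc, Finset.mem_Icc] at hs ⊢
              omega
            · intro s hs _
              have hs' : (1 : ℝ) ≤ s := by exact_mod_cast (Finset.mem_Icc.1 hs).1
              have := Real.log_nonneg hs'
              positivity
        _ = 3 * C₀ * ∑ s ∈ Icc 1 M, (1 + Real.log s) * Real.exp (-((s : ℝ) ^ 2 / Y ^ 2)) := by
            rw [Finset.mul_sum]
        _ ≤ 3 * C₀ * (26 * Y * lg X) := mul_le_mul_of_nonneg_left (hgs M) (by positivity)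
        _ = _ := by ring
    -- the boundary term
    have hs1' : (1 : ℝ) ≤ ((S₁ + 1 : ℕ) : ℝ) := by
      push_cast
      have : (0 : ℝ) ≤ S₁ := Nat.cast_nonneg _
      linarith
    have hfY : Real.exp (-(((S₁ + 1 : ℕ) : ℝ) ^ 2 / Y ^ 2)) ≤ Y := by
      have h1 : Real.exp (-(((S₁ + 1 : ℕ) : ℝ) ^ 2 / Y ^ 2)) ≤ Real.exp (-(1 / Y) ^ 2) := by
        rw [Real.exp_le_exp, neg_le_neg_iff, div_pow, one_pow]
        apply div_le_div_of_nonneg_right _ (by positivity)
        nlinarith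
      have h2 : 1 / Y * Real.exp (-(1 / Y) ^ 2) ≤ 1 := by
        have h3 : 1 / Y ≤ Real.exp ((1 / Y) ^ 2) := by
          have h4 := Real.add_one_le_exp ((1 / Y) ^ 2)
          nlinarith [sq_nonneg (1 - 1 / Y)]
        calc 1 / Y * Real.exp (-(1 / Y) ^ 2) ≤ Real.exp ((1 / Y) ^ 2) * Real.exp (-(1 / Y) ^ 2) :=
              mul_le_mul_of_nonneg_right h3 (Real.exp_pos _).le
          _ = 1 := by rw [← Real.exp_add]; simp
      have h5 : Real.exp (-(1 / Y) ^ 2) ≤ Y := by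
        have h6 := mul_le_mul_of_nonneg_left h2 hY.le
        rw [← mul_assoc, mul_one_div_cancel hY.ne', one_mul, mul_one] at h6
        exact h6
      exact h1.trans h5
    have hb1 : f (S₁ + 1) * L ≤ 16 * ((X : ℝ) * min (1 / (m : ℝ)) (1 / (q : ℝ))) + Y := by
      have h1 : f (S₁ + 1) * 1 ≤ Y := by
        rw [mul_one]
        simp only [hfd]
        calc 1 / ((S₁ + 1 : ℕ) : ℝ) * Real.exp (-(((S₁ + 1 : ℕ) : ℝ) ^ 2 / Y ^ 2)) ≤
              1 * Real.exp (-(((S₁ + 1 : ℕ) : ℝ) ^ 2 / Y ^ 2)) := by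
              apply mul_le_mul_of_nonneg_right _ (Real.exp_pos _).le
              rw [div_le_one (by linarith)]
              exact hs1'
          _ ≤ Y := by rw [one_mul]; exact hfY
      have h2 : f (S₁ + 1) * ((X : ℝ) / (8 * m)) ≤
          16 * ((X : ℝ) * min (1 / (m : ℝ)) (1 / (q : ℝ))) := by
        have h3 : f (S₁ + 1) * ((X : ℝ) / (8 * m)) ≤
            1 / ((S₁ + 1 : ℕ) : ℝ) * ((X : ℝ) / (8 * m)) :=
          mul_le_mul_of_nonneg_right (hf1 _) (by positivity)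
        refine h3.trans ?_
        rcases min_choice (1 / (m : ℝ)) (1 / (q : ℝ)) with h | h <;> rw [h]
        · have h4 : 1 / ((S₁ + 1 : ℕ) : ℝ) ≤ 1 := by
            rw [div_le_one (by linarith)]
            exact hs1'
          calc 1 / ((S₁ + 1 : ℕ) : ℝ) * ((X : ℝ) / (8 * m)) ≤ 1 * ((X : ℝ) / (8 * m)) :=
                mul_le_mul_of_nonneg_right h4 (by positivity)
            _ = (1 / 8) * ((X : ℝ) * (1 / m)) := by field_simp
            _ ≤ 16 * ((X : ℝ) * (1 / m)) := by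
                apply mul_le_mul_of_nonneg_right (by norm_num) (by positivity)
        · have h4 : (q : ℝ) ≤ 128 * m * ((S₁ + 1 : ℕ) : ℝ) := by exact_mod_cast hqlt.le
          have h5 : 1 / ((S₁ + 1 : ℕ) : ℝ) * ((X : ℝ) / (8 * m)) =
              (X : ℝ) / (8 * m * ((S₁ + 1 : ℕ) : ℝ)) := by
            field_simp
          have h6 : 16 * ((X : ℝ) * (1 / q)) = 16 * X / q := by ring
          rw [h5, h6, div_le_div_iff₀ (by positivity) (by linarith)]
          nlinarith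
      have h3 : f (S₁ + 1) * L = f (S₁ + 1) * ((X : ℝ) / (8 * m)) + f (S₁ + 1) * 1 := by
        rw [hLd]; ring
      linarith
    have hb2 : f (S₁ + 1) * Gf (S₁ + 1) ≤ I + Y := by
      have h1 : f (S₁ + 1) * Gf (S₁ + 1) = ((S₁ + 1 : ℕ) : ℝ) *
          (1 + Real.log ((S₁ + 1 : ℕ) : ℝ)) * Real.exp (-(((S₁ + 1 : ℕ) : ℝ) ^ 2 / Y ^ 2)) := by
        simp only [hfd, Gf]
        have : ((S₁ + 1 : ℕ) : ℝ) ≠ 0 := by linarith
        field_simp
      rw [h1]
      rcases Nat.eq_zero_or_pos S₁ with h0 | h0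
      · rw [h0] at hfY ⊢
        simp only [zero_add, Nat.cast_one, Real.log_one, add_zero, one_mul, mul_one] at hfY ⊢
        linarith
      · rw [hI1 h0]
        have hle : S₁ + 1 ≤ q := by nlinarith
        have hle' : ((S₁ + 1 : ℕ) : ℝ) ≤ q := by exact_mod_cast hle
        have h2 : Real.log ((S₁ + 1 : ℕ) : ℝ) ≤ Real.log q :=
          Real.log_le_log (by linarith) hle'
        have h3 : 0 ≤ Real.log ((S₁ + 1 : ℕ) : ℝ) := Real.log_nonneg hs1'
        have h4 : Real.exp (-(((S₁ + 1 : ℕ) : ℝ) ^ 2 / Y ^ 2)) ≤ 1 := by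
          rw [Real.exp_le_one_iff, neg_nonpos]
          positivity
        have h5 : ((S₁ + 1 : ℕ) : ℝ) * (1 + Real.log ((S₁ + 1 : ℕ) : ℝ)) ≤
            q * (1 + Real.log q) := mul_le_mul hle' (by linarith) (by linarith) (by linarith)
        calc ((S₁ + 1 : ℕ) : ℝ) * (1 + Real.log ((S₁ + 1 : ℕ) : ℝ)) *
              Real.exp (-(((S₁ + 1 : ℕ) : ℝ) ^ 2 / Y ^ 2)) ≤
              ((S₁ + 1 : ℕ) : ℝ) * (1 + Real.log ((S₁ + 1 : ℕ) : ℝ)) * 1 :=
              mul_le_mul_of_nonneg_left h4 (by positivity)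
          _ ≤ q * (1 + Real.log q) + Y := by linarith
    have hbd : f (S₁ + 1) * B (S₁ + 1) ≤
        C₀ * (16 * ((X : ℝ) * min (1 / (m : ℝ)) (1 / (q : ℝ))) + Y) + C₀ * (I + Y) := by
      have h1 : f (S₁ + 1) * B (S₁ + 1) =
          C₀ * (f (S₁ + 1) * L) + C₀ * (f (S₁ + 1) * Gf (S₁ + 1)) := by
        simp only [hBd]; ring
      rw [h1]
      have h2 := mul_le_mul_of_nonneg_left hb1 hC₀.le
      have h3 := mul_le_mul_of_nonneg_left hb2 hC₀.le
      linarith
    linarith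
  have hmin0 : 0 ≤ (X : ℝ) * min (1 / (m : ℝ)) (1 / (q : ℝ)) :=
    mul_nonneg (by positivity) (le_min (by positivity) (by positivity))
  have hYl : Y ≤ Y * lg X := by nlinarith
  have hY6' : Y * lg X ≤ 6 * (Real.sqrt X / (g : ℝ) ^ 2 * lg X) := by
    have := mul_le_mul_of_nonneg_right hY6 (show 0 ≤ lg X by linarith)
    linarith
  have hfin : TT X θ m g M ≤ 16 * C₀ * ((X : ℝ) * min (1 / (m : ℝ)) (1 / (q : ℝ))) +
      13 * C₀ * I + 80 * C₀ * (Y * lg X) := by
    rw [hTT]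
    have h1 := mul_le_mul_of_nonneg_left hYl hC₀.le
    linarith
  refine hfin.trans ?_
  have h1 : C₀ * (Y * lg X) ≤ C₀ * (6 * (Real.sqrt X / (g : ℝ) ^ 2 * lg X)) :=
    mul_le_mul_of_nonneg_left hY6' hC₀.le
  have h2 : 0 ≤ C₀ * ((X : ℝ) * min (1 / (m : ℝ)) (1 / (q : ℝ))) := mul_nonneg hC₀.le hmin0
  have h3 : 0 ≤ C₀ * I := mul_nonneg hC₀.le hIf
  linarith

end

end Pool.Agent.H50.BR
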