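import Pool.Agent.H28.BR.Stm

/-!
# Project BR, modules NLV, ARC and BTY
-/

set_option autoImplicit false

namespace Pool.Agent.H50.BR

open Finset Filter Topology MeasureTheory Pool.Agent.H28.BR

noncomputable section

theorem nd_le (x : ℝ) (z : ℤ) : nd x ≤ |x - z| := round_le x z

/-- BTY: Beatty sequences -/
theorem t_BTY : S_BTY := by
  intro α β n hα
  have hα0 : 0 < α := by linarith
  set x : ℝ := -(1 / α) * n + β / α with hx
  have hxα : x * α = β - n := by
    rw [hx]
    field_simp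
    ring
  constructor
  · rintro ⟨m, hm⟩
    rw [Int.floor_eq_iff] at hm
    obtain ⟨h1, h2⟩ := hm
    push_cast at h1 h2
    have h3 : 0 ≤ x + m := by
      have h4 : 0 ≤ (x + m) * α := by linarith
      exact nonneg_of_mul_nonneg_left h4 hα0
    have h5 : x + m < 1 / α := by
      rw [lt_div_iff₀ hα0]
      linarith
    have h6 : 1 / α < 1 := by
      rw [div_lt_one hα0]
      exact hα
    have h7 : Int.fract x = x + m := by
      rw [Int.fract_eq_iff]
      exact ⟨h3, by linarith, -m, by push_cast; ring⟩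
    rw [h7]
    exact h5
  · intro h
    refine ⟨-⌊x⌋, ?_⟩
    rw [Int.floor_eq_iff]
    have h1 : (⌊x⌋ : ℝ) ≤ x := Int.floor_le x
    have h2 : x - ⌊x⌋ < 1 / α := h
    rw [lt_div_iff₀ hα0] at h2
    have h3 : (⌊x⌋ : ℝ) * α ≤ x * α := mul_le_mul_of_nonneg_right h1 hα0.le
    push_cast
    constructor <;> linarith

/-- ARC -/
theorem t_ARC : S_ARC := by
  intro α c τ hc hτ h
  have hτ' : (0 : ℝ) < τ := by exact_mod_cast hτ
  refine ⟨(1 / c) ^ (1 / (τ : ℝ)) + 1, by positivity, ?_⟩
  intro X β Δ hX hΔ hΔ1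
  set H : ℝ := (c / Δ) ^ (1 / (τ : ℝ)) with hH
  have hH0 : 0 < H := by positivity
  set N := (Ioc 1 X).filter (fun n : ℕ => Int.fract (α * n + β) < Δ) with hN
  have hsep : ∀ n ∈ N, ∀ n' ∈ N, n < n' → H < (n' : ℝ) - n := by
    intro n hn n' hn' hlt
    rw [hN, Finset.mem_filter] at hn hn'
    have h1 := hn.2
    have h2 := hn'.2
    have h3 : nd (((n' - n : ℕ) : ℝ) * α) < Δ := by
      have e : ((n' - n : ℕ) : ℝ) * α - ((⌊α * n' + β⌋ - ⌊α * n + β⌋ : ℤ) : ℝ) =
          Int.fract (α * n' + β) - Int.fract (α * n + β) := by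
        rw [Nat.cast_sub hlt.le]
        unfold Int.fract
        push_cast
        ring
      refine lt_of_le_of_lt (nd_le _ (⌊α * n' + β⌋ - ⌊α * n + β⌋)) ?_
      rw [e, abs_lt]
      have h4 := Int.fract_nonneg (α * n' + β)
      have h5 := Int.fract_nonneg (α * n + β)
      constructor <;> linarith
    have hh : 1 ≤ n' - n := by omega
    have h4 := h (n' - n) hh
    have h5 : (0 : ℝ) < ((n' - n : ℕ) : ℝ) := by exact_mod_cast hh
    have h6 : c / Δ < ((n' - n : ℕ) : ℝ) ^ τ := by
      rw [div_lt_iff₀ hΔ]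
      have h7 : c / ((n' - n : ℕ) : ℝ) ^ τ < Δ := lt_of_le_of_lt h4 h3
      rw [div_lt_iff₀ (by positivity)] at h7
      linarith
    have h8 : H < ((n' - n : ℕ) : ℝ) := by
      have h9 : (((n' - n : ℕ) : ℝ) ^ τ) ^ (1 / (τ : ℝ)) = ((n' - n : ℕ) : ℝ) := by
        rw [← Real.rpow_natCast, ← Real.rpow_mul h5.le, mul_one_div_cancel hτ'.ne', Real.rpow_one]
      rw [← h9, hH]
      exact Real.rpow_lt_rpow (by positivity) h6 (by positivity)
    rw [Nat.cast_sub hlt.le] at h8
    exact h8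
  have hcard : N.card ≤ (Finset.range (⌊(X : ℝ) / H⌋₊ + 1)).card := by
    apply Finset.card_le_card_of_injOn (fun n : ℕ => ⌊(n : ℝ) / H⌋₊)
    · intro n hn
      have h1 : n ≤ X := by
        have := (Finset.mem_filter.1 (Finset.mem_coe.1 hn)).1
        exact (Finset.mem_Ioc.1 this).2
      have h2 : (n : ℝ) / H ≤ (X : ℝ) / H := by
        have : (n : ℝ) ≤ X := by exact_mod_cast h1
        gcongr
      have h3 := Nat.floor_le_floor h2
      simp only [Finset.coe_range, Set.mem_Iio]
      omega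
    · have key : ∀ n ∈ N, ∀ n' ∈ N, n < n' → ⌊(n : ℝ) / H⌋₊ ≠ ⌊(n' : ℝ) / H⌋₊ := by
        intro n hn n' hn' hlt heq
        have h1 := hsep n hn n' hn' hlt
        have h2 : (n' : ℝ) / H < ⌊(n' : ℝ) / H⌋₊ + 1 := Nat.lt_floor_add_one _
        have h3 : (⌊(n : ℝ) / H⌋₊ : ℝ) ≤ n / H := Nat.floor_le (by positivity)
        rw [← heq] at h2
        have h4 : (n' : ℝ) / H - n / H < 1 := by linarith
        rw [← sub_div, div_lt_one hH0] at h4
        linarith
      intro n hn n' hn' heq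
      simp only at heq
      rcases lt_trichotomy n n' with h1 | h1 | h1
      · exact absurd heq (key n hn n' hn' h1)
      · exact h1
      · exact absurd heq.symm (key n' hn' n hn h1)
  rw [Finset.card_range] at hcard
  have h1 : (N.card : ℝ) ≤ (X : ℝ) / H + 1 := by
    have h2 : (N.card : ℝ) ≤ (⌊(X : ℝ) / H⌋₊ : ℝ) + 1 := by exact_mod_cast hcard
    have h3 : (⌊(X : ℝ) / H⌋₊ : ℝ) ≤ (X : ℝ) / H := Nat.floor_le (by positivity)
    linarith
  have h2 : (X : ℝ) / H = (1 / c) ^ (1 / (τ : ℝ)) * (X * Δ ^ (1 / (τ : ℝ))) := by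
    rw [hH, Real.div_rpow hc.le hΔ.le, Real.div_rpow zero_le_one hc.le, Real.one_rpow]
    have h3 : 0 < c ^ (1 / (τ : ℝ)) := by positivity
    have h4 : 0 < Δ ^ (1 / (τ : ℝ)) := by positivity
    field_simp
  have h3 : 0 ≤ (X : ℝ) * Δ ^ (1 / (τ : ℝ)) := by positivity
  have h4 : 0 < (1 / c) ^ (1 / (τ : ℝ)) := by positivity
  rw [h2] at h1
  nlinarith

/-- NLV -/
theorem t_NLV : S_NLV := by
  intro α hα hL
  unfold Liouville at hL
  push Not at hL
  obtain ⟨n, hn⟩ := hL
  have hα0 : α ≠ 0 := hα.ne_zero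
  have hnd1 : 0 < nd α := by
    unfold nd
    rw [abs_pos, sub_ne_zero]
    exact hα.ne_int _
  -- for `α`
  set c₁ : ℝ := min 1 (nd α) with hc₁
  have hc₁0 : 0 < c₁ := lt_min one_pos hnd1
  have hc₁1 : c₁ ≤ 1 := min_le_left _ _
  have h1 : ∀ h : ℕ, 1 ≤ h → c₁ / (h : ℝ) ^ (n + 1) ≤ nd (h * α) := by
    intro h hh
    have hh' : (1 : ℝ) ≤ h := by exact_mod_cast hh
    rcases Nat.eq_or_lt_of_le hh with he | hlt
    · rw [← he]
      simp only [Nat.cast_one, one_pow, div_one, one_mul]
      exact min_le_right _ _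
    · have h2 := hn (round ((h : ℝ) * α)) (h : ℤ) (by exact_mod_cast hlt) (by
        intro he
        apply hα
        exact ⟨((round ((h : ℝ) * α) : ℤ) : ℚ) / ((h : ℤ) : ℚ), by push_cast; exact he.symm⟩)
      have h3 : nd (h * α) = h * |α - (round ((h : ℝ) * α) : ℝ) / ((h : ℤ) : ℝ)| := by
        unfold nd
        rw [← abs_of_pos (show (0 : ℝ) < h by linarith), ← abs_mul]
        simp only [abs_of_pos (show (0 : ℝ) < h by linarith)]
        congr 1
        push_cast
        field_simp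
      rw [h3]
      have h4 : 1 / (h : ℝ) ^ n ≤ |α - (round ((h : ℝ) * α) : ℝ) / ((h : ℤ) : ℝ)| := by
        simpa using h2
      calc c₁ / (h : ℝ) ^ (n + 1) ≤ 1 / (h : ℝ) ^ n := by
            apply div_le_div₀ zero_le_one hc₁1 (by positivity)
            exact pow_le_pow_right₀ hh' (by omega)
        _ = 1 * (1 / (h : ℝ) ^ n) := by ring
        _ ≤ h * |α - (round ((h : ℝ) * α) : ℝ) / ((h : ℤ) : ℝ)| :=
            mul_le_mul hh' h4 (by positivity) (by linarith)
  have hα1 : 0 < |α| := abs_pos.2 hα0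
  set D : ℝ := 1 / |α| + 1 with hD
  have hD0 : 0 < D := by positivity
  have hD1 : 1 ≤ D := by rw [hD]; have : 0 ≤ 1 / |α| := by positivity
                         linarith
  set c₂ : ℝ := c₁ / (|α| * D ^ (n + 1)) with hc₂
  have hc₂0 : 0 < c₂ := by positivity
  have h2 : ∀ h : ℕ, 1 ≤ h → c₂ / (h : ℝ) ^ (n + 1) ≤ nd (h * (-(1 / α))) := by
    intro h hh
    have hh' : (1 : ℝ) ≤ h := by exact_mod_cast hh
    set k : ℤ := round ((h : ℝ) * (-(1 / α))) with hk
    have h3 : |α| * nd (h * (-(1 / α))) = |(h : ℝ) + k * α| := by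
      unfold nd
      rw [← abs_mul, ← hk, ← abs_neg]
      congr 1
      field_simp
      ring
    have h4 : c₁ / (D ^ (n + 1) * (h : ℝ) ^ (n + 1)) ≤ |(h : ℝ) + k * α| := by
      have h5 : 1 ≤ D ^ (n + 1) * (h : ℝ) ^ (n + 1) :=
        one_le_mul_of_one_le_of_one_le (one_le_pow₀ hD1) (one_le_pow₀ hh')
      rcases eq_or_ne k 0 with h0 | h0
      · rw [h0]
        simp only [Int.cast_zero, zero_mul, add_zero]
        rw [abs_of_pos (by linarith)]
        calc c₁ / (D ^ (n + 1) * (h : ℝ) ^ (n + 1)) ≤ 1 / 1 :=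
              div_le_div₀ zero_le_one hc₁1 one_pos h5
          _ ≤ h := by simpa using hh'
      · have hk1 : 1 ≤ k.natAbs := Nat.one_le_iff_ne_zero.2 (Int.natAbs_ne_zero.2 h0)
        have hkD : (k.natAbs : ℝ) ≤ D * h := by
          have h6 : (k.natAbs : ℝ) = |(k : ℝ)| := by
            rw [Nat.cast_natAbs, Int.cast_abs]
          have h7 : |(h : ℝ) * (-(1 / α)) - k| ≤ 1 / 2 := abs_sub_round _
          have h8 : |(k : ℝ)| ≤ |(h : ℝ) * (-(1 / α))| + 1 / 2 := by
            have h9 : |(k : ℝ)| ≤ |(h : ℝ) * (-(1 / α))| + |(h : ℝ) * (-(1 / α)) - k| := by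
              have := abs_sub_abs_le_abs_sub (k : ℝ) ((h : ℝ) * (-(1 / α)))
              rw [abs_sub_comm (k : ℝ)] at this
              linarith
            linarith
          have h10 : |(h : ℝ) * (-(1 / α))| = h * (1 / |α|) := by
            rw [abs_mul, abs_neg, abs_div, abs_one, abs_of_pos (show (0 : ℝ) < h by linarith)]
          rw [h6, hD]
          rw [h10] at h8
          nlinarith
        have h11 := h1 k.natAbs hk1
        have h12 : nd ((k.natAbs : ℝ) * α) ≤ |(h : ℝ) + k * α| := by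
          rcases lt_or_gt_of_ne h0 with hneg | hpos
          · have e1 : (k.natAbs : ℝ) = -(k : ℝ) := by
              rw [Nat.cast_natAbs, Int.cast_abs, abs_of_neg (by exact_mod_cast hneg)]
            have h13 := nd_le ((k.natAbs : ℝ) * α) (h : ℤ)
            rw [e1] at h13 ⊢
            rw [← abs_neg] at h13
            convert h13 using 2
            push_cast
            ring
          · have e1 : (k.natAbs : ℝ) = (k : ℝ) := by
              rw [Nat.cast_natAbs, Int.cast_abs, abs_of_pos (by exact_mod_cast hpos)]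
            have h13 := nd_le ((k.natAbs : ℝ) * α) (-(h : ℤ))
            rw [e1] at h13 ⊢
            convert h13 using 2
            push_cast
            ring
        have hk0 : (0 : ℝ) < k.natAbs := by exact_mod_cast hk1
        calc c₁ / (D ^ (n + 1) * (h : ℝ) ^ (n + 1)) = c₁ / (D * h) ^ (n + 1) := by rw [mul_pow]
          _ ≤ c₁ / (k.natAbs : ℝ) ^ (n + 1) := by
              apply div_le_div_of_nonneg_left hc₁0.le (by positivity)
              exact pow_le_pow_left₀ hk0.le hkD _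
          _ ≤ nd ((k.natAbs : ℝ) * α) := h11
          _ ≤ _ := h12
    have h5 : nd (h * (-(1 / α))) = |(h : ℝ) + k * α| / |α| := by
      rw [← h3]
      field_simp
    rw [h5, le_div_iff₀ hα1]
    refine le_trans (le_of_eq ?_) h4
    rw [hc₂]
    field_simp
  refine ⟨min c₁ c₂, n + 1, lt_min hc₁0 hc₂0, by omega, fun h hh => ?_, fun h hh => ?_⟩
  · exact (div_le_div_of_nonneg_right (min_le_left _ _) (by positivity)).trans (h1 h hh)
  · exact (div_le_div_of_nonneg_right (min_le_right _ _) (by positivity)).trans (h2 h hh)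

end

end Pool.Agent.H50.BR
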